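import Mathlib

/-!
# MP_141f81, Section 9: the compression lemma T1 (finite form)

`A` a ring with `x + x = 0`, `r : A → ℕ` a size of elements (the number of elements of the range of an endomorphism),
`L : U → A` almost additive, products `L u * L v` in the almost image of `L` for `v` in a subgroup of index `≤ K`.
Then for `a` in a subgroup of bounded index and ALL `v` the product `L a * L v` is, up to bounded size, in
`L U + span (f_1, …, f_c)`.
-/

namespace Pool.Agent.helper62.MF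

open Finset

/-- A size function on a ring. -/
structure Siz {A : Type*} [Ring A] (r : A → ℕ) : Prop where
  one : ∀ x, 1 ≤ r x
  zero : r 0 = 1
  add : ∀ x y, r (x + y) ≤ r x * r y
  mulL : ∀ x y, r (x * y) ≤ r x
  mulR : ∀ x y, r (x * y) ≤ r y

section

variable {A : Type*} [Ring A] {r : A → ℕ}

/-- `x` and `y` differ by an element of size `≤ N`. -/
def Nr (r : A → ℕ) (N : ℕ) (x y : A) : Prop := r (x + y) ≤ N

theorem Siz.refl (hr : Siz r) (h2 : ∀ x : A, x + x = 0) (x : A) : Nr r 1 x x := by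
  unfold Nr; rw [h2, hr.zero]

theorem Nr.mono {N N' : ℕ} {x y : A} (h : Nr r N x y) (hN : N ≤ N') : Nr r N' x y := le_trans h hN

theorem Nr.symm {N : ℕ} {x y : A} (h : Nr r N x y) : Nr r N y x := by
  unfold Nr at *; rwa [add_comm]

theorem Siz.trans (hr : Siz r) (h2 : ∀ x : A, x + x = 0) {N N' : ℕ} {x y z : A} (h : Nr r N x y)
    (h' : Nr r N' y z) : Nr r (N * N') x z := by
  unfold Nr at *
  have e : x + z = (x + y) + (y + z) := by
    calc x + z = x + 0 + z := by rw [add_zero]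
      _ = x + (y + y) + z := by rw [h2]
      _ = (x + y) + (y + z) := by abel
  rw [e]
  exact (hr.add _ _).trans (Nat.mul_le_mul h h')

theorem Siz.nadd (hr : Siz r) {N N' : ℕ} {x y x' y' : A} (h : Nr r N x y) (h' : Nr r N' x' y') :
    Nr r (N * N') (x + x') (y + y') := by
  unfold Nr at *
  have e : x + x' + (y + y') = (x + y) + (x' + y') := by abel
  rw [e]
  exact (hr.add _ _).trans (Nat.mul_le_mul h h')

theorem Siz.nmul (hr : Siz r) {N : ℕ} {x y : A} (a : A) (h : Nr r N x y) : Nr r N (a * x) (a * y) := by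
  unfold Nr at *
  rw [← mul_add]
  exact (hr.mulR _ _).trans h

theorem Siz.nmul' (hr : Siz r) {N : ℕ} {x y : A} (a : A) (h : Nr r N x y) : Nr r N (x * a) (y * a) := by
  unfold Nr at *
  rw [← add_mul]
  exact (hr.mulL _ _).trans h

theorem Siz.nsum (hr : Siz r) {ι : Type*} {N : ℕ} (s : Finset ι) (x y : ι → A)
    (h : ∀ i ∈ s, Nr r N (x i) (y i)) : Nr r (N ^ #s) (∑ i ∈ s, x i) (∑ i ∈ s, y i) := by
  classical
  induction s using Finset.induction_on with
  | empty => simp [Nr, hr.zero]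
  | insert a s ha ih =>
    rw [Finset.sum_insert ha, Finset.sum_insert ha, Finset.card_insert_of_notMem ha, pow_succ, mul_comm]
    exact hr.nadd (h a (Finset.mem_insert_self a s)) (ih (fun i hi => h i (Finset.mem_insert_of_mem hi)))

end

section

variable {A : Type*} [Ring A] {r : A → ℕ} {U W : Type*} [AddCommGroup U] [AddCommGroup W]

/-- Multipliers in `W` with defect `≤ B`; the product is in `L U`. -/
def SS (r : A → ℕ) (L : U → A) (ι : W →+ U) (a : W) (B : ℕ) : Set W :=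
  {v | ∃ x : U, r (L (ι a) * L (ι v) + L x) ≤ B}

theorem SS_mono {L : U → A} {ι : W →+ U} {a : W} {B B' : ℕ} (h : B ≤ B') : SS r L ι a B ⊆ SS r L ι a B' :=
  fun _ ⟨x, hx⟩ => ⟨x, hx.trans h⟩

/-- Independence over `(a, B)`. -/
def Idp (r : A → ℕ) (L : U → A) (ι : W →+ U) (a : W) (B : ℕ) {c : ℕ} (v : Fin c → W) : Prop :=
  ∀ s : Finset (Fin c), s.Nonempty → ∑ i ∈ s, v i ∉ SS r L ι a B

theorem sum_symmDiff2 {M ι : Type*} [AddCommGroup M] [DecidableEq ι] (h2 : ∀ x : M, x + x = 0) (s t : Finset ι)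
    (f : ι → M) : ∑ i ∈ s, f i + ∑ i ∈ t, f i = ∑ i ∈ symmDiff s t, f i := by
  have h1 : ∑ i ∈ s, f i = ∑ i ∈ s \ t, f i + ∑ i ∈ s ∩ t, f i := by
    rw [add_comm, Finset.sum_inter_add_sum_sdiff]
  have h3 : ∑ i ∈ t, f i = ∑ i ∈ t \ s, f i + ∑ i ∈ s ∩ t, f i := by
    rw [add_comm, Finset.inter_comm, Finset.sum_inter_add_sum_sdiff]
  have h4 : symmDiff s t = (s \ t) ∪ (t \ s) := rfl
  rw [h4, Finset.sum_union (by
    rw [Finset.disjoint_left]; intro x hx hx'
    exact (Finset.mem_sdiff.1 hx').2 (Finset.mem_sdiff.1 hx).1), h1, h3]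
  calc ∑ i ∈ s \ t, f i + ∑ i ∈ s ∩ t, f i + (∑ i ∈ t \ s, f i + ∑ i ∈ s ∩ t, f i)
      = ∑ i ∈ s \ t, f i + ∑ i ∈ t \ s, f i + (∑ i ∈ s ∩ t, f i + ∑ i ∈ s ∩ t, f i) := by abel
    _ = _ := by rw [h2, add_zero]

/-- **T1.** `L` is almost additive on `U`; the products `L u * L v` are considered only for `u`, `v` in `W → U` (a
subgroup), commutativity only for `v` in the domain of `u`. -/
theorem T1 [Finite W] (hr : Siz r) (hA : ∀ x : A, x + x = 0) (hW : ∀ u : W, u + u = 0)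
    (ι : W →+ U) (L : U → A) (b K : ℕ)
    (hadd : ∀ u v, r (L (u + v) + (L u + L v)) ≤ b)
    (hdom : ∀ u : W, ∃ D : AddSubgroup W, D.index ≤ K ∧ ∀ v ∈ D,
      (∃ x, r (L (ι u) * L (ι v) + L x) ≤ b) ∧ r (L (ι v) * L (ι u) + L (ι u) * L (ι v)) ≤ b) :
    ∃ (c : ℕ) (_ : c ≤ K) (a₁ : W) (vv : Fin c → W) (Y : AddSubgroup W), Y.index ≤ K ^ c ∧
      ∀ a ∈ Y, ∀ v : W, ∃ (x : U) (s : Finset (Fin c)),
        r (L (ι a) * L (ι v) + (L x + ∑ i ∈ s, L (ι a₁) * L (ι (vv i)))) ≤
          (b ^ (4 * K + 4)) ^ (2 * K + 14) := by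
  classical
  have hb : 1 ≤ b := (hr.one _).trans (hadd 0 0)
  have h0 : r (L 0) ≤ b := by
    have := hadd 0 0
    rw [add_zero, hA, add_zero] at this
    exact this
  choose D hDi hDc using hdom
  have hD : ∀ u : W, ∀ v ∈ D u, ∃ x, r (L (ι u) * L (ι v) + L x) ≤ b := fun u v hv => (hDc u v hv).1
  set q : ℕ := b ^ (4 * K + 4) with hq
  have hq1 : 1 ≤ q := Nat.one_le_pow _ _ hb
  have hbq : b ≤ q := by
    calc b = b ^ 1 := (pow_one b).symm
      _ ≤ q := Nat.pow_le_pow_right hb (by omega)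
  -- the scales
  set Bj : ℕ → ℕ := fun j => b * q ^ j with hBj
  have hBmono : ∀ j, Bj (j + 1) = Bj j * q := by intro j; simp only [hBj, pow_succ]; ring
  have hBb : ∀ j, b ≤ Bj j := fun j => Nat.le_mul_of_pos_right _ (Nat.one_le_pow _ _ hq1)
  have hBle : ∀ j, Bj j ≤ q ^ (j + 1) := by
    intro j
    simp only [hBj, pow_succ]
    rw [mul_comm]
    exact Nat.mul_le_mul_left _ hbq
  -- independent families are short
  have hshort : ∀ (a : W) (B : ℕ), b ≤ B → ∀ (c : ℕ) (v : Fin c → W), Idp r L ι a B v → c < K := by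
    intro a B hB c v hv
    have h1 : Nat.card (Finset (Fin c)) ≤ Nat.card (W ⧸ D a) := by
      apply Nat.card_le_card_of_injective (fun s : Finset (Fin c) => (QuotientAddGroup.mk (∑ i ∈ s, v i) : W ⧸ D a))
      intro s t hst
      have h2 : -(∑ i ∈ s, v i) + ∑ i ∈ t, v i ∈ D a := QuotientAddGroup.eq.1 hst
      have hneg : -(∑ i ∈ s, v i) = ∑ i ∈ s, v i := neg_eq_of_add_eq_zero_left (hW _)
      rw [hneg, sum_symmDiff2 hW] at h2
      by_contra hne
      have h3 : (symmDiff s t).Nonempty := by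
        rw [Finset.nonempty_iff_ne_empty]
        intro h4
        exact hne (symmDiff_eq_bot.1 h4)
      exact hv _ h3 (SS_mono hB (hD a _ h2))
    have h2 : Nat.card (Finset (Fin c)) = 2 ^ c := by
      rw [Nat.card_eq_fintype_card, Fintype.card_finset, Fintype.card_fin]
    have h3 : Nat.card (W ⧸ D a) ≤ K := hDi a
    rw [h2] at h1
    exact (Nat.lt_two_pow_self).trans_le (h1.trans h3)
  -- the maximal length
  set m : ℕ → ℕ := fun B => Nat.findGreatest (fun c => ∃ (a : W) (v : Fin c → W), Idp r L ι a B v) K with hm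
  have hmspec : ∀ B, ∃ (a : W) (v : Fin (m B) → W), Idp r L ι a B v := by
    intro B
    have h1 : ∃ (a : W) (v : Fin 0 → W), Idp r L ι a B v := by
      refine ⟨0, Fin.elim0, ?_⟩
      intro s hs
      obtain ⟨i, _⟩ := hs
      exact Fin.elim0 i
    exact Nat.findGreatest_spec (P := fun c => ∃ (a : W) (v : Fin c → W), Idp r L ι a B v) (Nat.zero_le K) h1
  have hmK : ∀ B, m B ≤ K := fun B => Nat.findGreatest_le K
  have hmmax : ∀ B, b ≤ B → ∀ (c : ℕ) (a : W) (v : Fin c → W), Idp r L ι a B v → c ≤ m B := by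
    intro B hB c a v hv
    exact Nat.le_findGreatest (hshort a B hB c v hv).le ⟨a, v, hv⟩
  have hmanti : ∀ j, m (Bj (j + 1)) ≤ m (Bj j) := by
    intro j
    obtain ⟨a, v, hv⟩ := hmspec (Bj (j + 1))
    apply hmmax _ (hBb j) _ a v
    intro s hs hmem
    refine hv s hs (SS_mono ?_ hmem)
    rw [hBmono]
    exact Nat.le_mul_of_pos_right _ hq1
  -- two consecutive scales with the same length
  obtain ⟨j, hjK, hj⟩ : ∃ j, j ≤ K ∧ m (Bj (j + 1)) = m (Bj j) := by
    by_contra hcon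
    push Not at hcon
    have h1 : ∀ j, j ≤ K + 1 → m (Bj j) + j ≤ K := by
      intro j
      induction j with
      | zero => intro _; simpa using hmK _
      | succ j ih =>
        intro hj
        have h2 := ih (by omega)
        have h3 := hmanti j
        have h4 := hcon j (by omega)
        omega
    have := h1 (K + 1) le_rfl
    omega
  obtain ⟨c, hc⟩ : ∃ c, c = m (Bj (j + 1)) := ⟨_, rfl⟩
  rw [← hc] at hj
  obtain ⟨a₁, vv, hvv⟩ : ∃ (a : W) (v : Fin c → W), Idp r L ι a (Bj (j + 1)) v := by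
    rw [hc]; exact hmspec _
  have hcK : c ≤ K := by rw [hc]; exact hmK _
  have hqc1 : b ^ (c + 1) ≤ q := Nat.pow_le_pow_right hb (by omega)
  set q' : ℕ := b ^ (4 * K + 2) with hq'
  have hqc2 : b ^ (4 * c + 2) ≤ q' := Nat.pow_le_pow_right hb (by omega)
  have hqq' : q = b * q' * b := by
    rw [hq, hq', ← pow_succ', ← pow_succ]
  have hq'q : q' ≤ q := Nat.pow_le_pow_right hb (by omega)
  refine ⟨c, hcK, a₁, vv, ⨅ i, D (vv i), ?_, ?_⟩
  · refine (AddSubgroup.index_iInf_le _).trans ?_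
    calc ∏ i, (D (vv i)).index ≤ ∏ _i : Fin c, K := Finset.prod_le_prod' (fun i _ => hDi _)
      _ = K ^ c := by rw [Finset.prod_const, Finset.card_univ, Fintype.card_fin]
  -- sums of the `L (vv i)`
  have hLsum : ∀ (w : Fin c → U) (s : Finset (Fin c)), Nr r (b ^ (#s + 1)) (L (∑ i ∈ s, w i)) (∑ i ∈ s, L (w i)) := by
    intro w s
    induction s using Finset.induction_on with
    | empty => simpa [Nr] using h0
    | insert i s hi ih =>
      rw [Finset.sum_insert hi, Finset.sum_insert hi, Finset.card_insert_of_notMem hi]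
      have h1 : Nr r b (L (w i + ∑ i ∈ s, w i)) (L (w i) + L (∑ i ∈ s, w i)) := hadd _ _
      have h2 : Nr r (1 * b ^ (#s + 1)) (L (w i) + L (∑ i ∈ s, w i)) (L (w i) + ∑ i ∈ s, L (w i)) :=
        hr.nadd (hr.refl hA _) ih
      refine (hr.trans hA h1 h2).mono (le_of_eq ?_)
      rw [pow_succ]; ring
  have hcs : ∀ s : Finset (Fin c), #s ≤ c := fun s => by simpa using Finset.card_le_univ s
  intro a ha v
  have hai : ∀ i, a ∈ D (vv i) := fun i => (AddSubgroup.mem_iInf.1 ha) i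
  -- `L a * L w` for `w` a subset sum
  have hLaw : ∀ s : Finset (Fin c), ∃ y, Nr r q' (L (ι a) * L (ι (∑ i ∈ s, vv i))) (L y) := by
    intro s
    have h1 : ∀ i, ∃ y, Nr r (b * b) (L (ι a) * L (ι (vv i))) (L y) := by
      intro i
      obtain ⟨y, hy⟩ := hD (vv i) a (hai i)
      exact ⟨y, hr.trans hA (hDc (vv i) a (hai i)).2 hy⟩
    choose y hy using h1
    refine ⟨∑ i ∈ s, y i, ?_⟩
    have e1 : Nr r (b ^ (#s + 1)) (L (ι a) * L (ι (∑ i ∈ s, vv i))) (L (ι a) * ∑ i ∈ s, L (ι (vv i))) := by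
      rw [map_sum]; exact hr.nmul _ (hLsum (fun i => ι (vv i)) s)
    have e2 : Nr r ((b * b) ^ #s) (L (ι a) * ∑ i ∈ s, L (ι (vv i))) (∑ i ∈ s, L (y i)) := by
      rw [Finset.mul_sum]
      exact hr.nsum s _ _ (fun i _ => hy i)
    have e3 : Nr r (b ^ (#s + 1)) (∑ i ∈ s, L (y i)) (L (∑ i ∈ s, y i)) := (hLsum y s).symm
    refine (hr.trans hA (hr.trans hA e1 e2) e3).mono ?_
    have e4 : b ^ (#s + 1) * (b * b) ^ #s * b ^ (#s + 1) = b ^ (4 * #s + 2) := by
      rw [← pow_two b, ← pow_mul, ← pow_add, ← pow_add]; congr 1; ring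
    rw [e4]
    refine le_trans (Nat.pow_le_pow_right hb ?_) hqc2
    have := hcs s
    omega
  have hLa1 : ∀ s : Finset (Fin c), Nr r q (L (ι a₁) * L (ι (∑ i ∈ s, vv i))) (∑ i ∈ s, L (ι a₁) * L (ι (vv i))) := by
    intro s
    have e1 : Nr r (b ^ (#s + 1)) (L (ι a₁) * L (ι (∑ i ∈ s, vv i))) (L (ι a₁) * ∑ i ∈ s, L (ι (vv i))) := by
      rw [map_sum]; exact hr.nmul _ (hLsum (fun i => ι (vv i)) s)
    rw [Finset.mul_sum] at e1
    refine e1.mono (le_trans (Nat.pow_le_pow_right hb ?_) hqc1)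
    have := hcs s
    omega
  -- `vv` is independent over `(a₁ + a, Bj j)`
  have hind : Idp r L ι (a₁ + a) (Bj j) vv := by
    intro s hs hmem
    obtain ⟨x, hx⟩ := hmem
    obtain ⟨y, hy⟩ := hLaw s
    apply hvv s hs
    refine ⟨x + y, ?_⟩
    set w := ∑ i ∈ s, vv i with hw
    have e1 : Nr r b (L (ι a₁) * L (ι w)) ((L (ι (a₁ + a)) + L (ι a)) * L (ι w)) := by
      apply hr.nmul'
      have := hadd (ι a₁) (ι a)
      rw [← map_add] at this
      unfold Nr
      have e : L (ι a₁) + (L (ι (a₁ + a)) + L (ι a)) = L (ι (a₁ + a)) + (L (ι a₁) + L (ι a)) := by abel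
      rw [e]; exact this
    rw [add_mul] at e1
    have e2 : Nr r (Bj j * q') (L (ι (a₁ + a)) * L (ι w) + L (ι a) * L (ι w)) (L x + L y) := hr.nadd hx hy
    have e3 : Nr r b (L x + L y) (L (x + y)) := Nr.symm (hadd x y)
    have e4 := hr.trans hA (hr.trans hA e1 e2) e3
    refine e4.mono (le_of_eq ?_)
    rw [hBmono, hqq']
    ring
  -- every `v` is a subset sum modulo the multipliers
  have hmaxi : ∀ (a' : W) (B : ℕ), b ≤ B → m B = c → Idp r L ι a' B vv →
      ∃ s : Finset (Fin c), v + ∑ i ∈ s, vv i ∈ SS r L ι a' B := by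
    intro a' B hB hmB hI
    by_contra hcon
    push Not at hcon
    have hI' : Idp r L ι a' B (Fin.cons v vv : Fin (c + 1) → W) := by
      intro s hs hmem
      by_cases h0s : (0 : Fin (c + 1)) ∈ s
      · -- contains `v`
        have e1 : ∑ i ∈ s, (Fin.cons v vv : Fin (c + 1) → W) i
            = v + ∑ i ∈ (univ.filter (fun i : Fin c => i.succ ∈ s)), vv i := by
          have e2 : s = insert 0 ((univ.filter (fun i : Fin c => i.succ ∈ s)).image Fin.succ) := by
            ext i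
            refine Fin.cases ?_ (fun i => ?_) i
            · simp [h0s]
            · simp
          conv_lhs => rw [e2]
          rw [Finset.sum_insert (by simp), Finset.sum_image (fun x _ y _ h => Fin.succ_injective _ h)]
          simp
        rw [e1] at hmem
        exact hcon _ hmem
      · have e1 : ∑ i ∈ s, (Fin.cons v vv : Fin (c + 1) → W) i
            = ∑ i ∈ (univ.filter (fun i : Fin c => i.succ ∈ s)), vv i := by
          have e2 : s = (univ.filter (fun i : Fin c => i.succ ∈ s)).image Fin.succ := by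
            ext i
            refine Fin.cases ?_ (fun i => ?_) i
            · simp [h0s]
            · simp
          conv_lhs => rw [e2]
          rw [Finset.sum_image (fun x _ y _ h => Fin.succ_injective _ h)]
          simp
        rw [e1] at hmem
        refine hI _ ?_ hmem
        obtain ⟨i, hi⟩ := hs
        have hi0 : i ≠ 0 := by rintro rfl; exact h0s hi
        obtain ⟨k, rfl⟩ := Fin.exists_succ_eq.2 hi0
        exact ⟨k, by simpa using hi⟩
    have := hmmax B hB (c + 1) a' _ hI'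
    omega
  obtain ⟨s, x, hx⟩ := hmaxi (a₁ + a) (Bj j) (hBb j) hj.symm hind
  obtain ⟨s', x', hx'⟩ := hmaxi a₁ (Bj (j + 1)) (hBb _) hc.symm hvv
  set w := ∑ i ∈ s, vv i with hw
  set w' := ∑ i ∈ s', vv i with hw'
  obtain ⟨y, hy⟩ := hLaw s
  refine ⟨x + y + x', symmDiff s s', ?_⟩
  have addr : ∀ u : W, Nr r b (L (ι v)) (L (ι (v + u)) + L (ι u)) := by
    intro u
    have h1 := hadd (ι v) (ι u)
    rw [← map_add] at h1
    unfold Nr
    have e : L (ι v) + (L (ι (v + u)) + L (ι u)) = L (ι (v + u)) + (L (ι v) + L (ι u)) := by abel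
    rw [e]; exact h1
  have adda : Nr r b (L (ι (a₁ + a))) (L (ι a₁) + L (ι a)) := by
    have h1 := hadd (ι a₁) (ι a)
    rw [← map_add] at h1
    exact h1
  -- L a ~ L (a₁ + a) + L a₁
  have f1 : Nr r b (L (ι a) * L (ι v)) (L (ι (a₁ + a)) * L (ι v) + L (ι a₁) * L (ι v)) := by
    rw [← add_mul]
    apply hr.nmul'
    have h1 := adda
    unfold Nr at h1 ⊢
    have e : L (ι a) + (L (ι (a₁ + a)) + L (ι a₁)) = L (ι (a₁ + a)) + (L (ι a₁) + L (ι a)) := by abel
    rw [e]; exact h1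
  have f2 : Nr r b (L (ι (a₁ + a)) * L (ι v)) (L (ι (a₁ + a)) * L (ι (v + w)) + L (ι (a₁ + a)) * L (ι w)) := by
    rw [← mul_add]; exact hr.nmul _ (addr w)
  have f3 : Nr r (Bj j) (L (ι (a₁ + a)) * L (ι (v + w))) (L x) := hx
  have f4 : Nr r b (L (ι (a₁ + a)) * L (ι w)) (L (ι a₁) * L (ι w) + L (ι a) * L (ι w)) := by
    rw [← add_mul]; exact hr.nmul' _ adda
  have f5 : Nr r q (L (ι a₁) * L (ι w)) (∑ i ∈ s, L (ι a₁) * L (ι (vv i))) := hLa1 s
  have f6 : Nr r q' (L (ι a) * L (ι w)) (L y) := hy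
  have f7 : Nr r b (L (ι a₁) * L (ι v)) (L (ι a₁) * L (ι (v + w')) + L (ι a₁) * L (ι w')) := by
    rw [← mul_add]; exact hr.nmul _ (addr w')
  have f8 : Nr r (Bj (j + 1)) (L (ι a₁) * L (ι (v + w'))) (L x') := hx'
  have f9 : Nr r q (L (ι a₁) * L (ι w')) (∑ i ∈ s', L (ι a₁) * L (ι (vv i))) := hLa1 s'
  have g1 := hr.trans hA f2 (hr.nadd f3 (hr.trans hA f4 (hr.nadd f5 f6)))
  have g2 := hr.trans hA f7 (hr.nadd f8 f9)
  have g3 := hr.trans hA f1 (hr.nadd g1 g2)
  -- collect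
  have g4 : L x + (∑ i ∈ s, L (ι a₁) * L (ι (vv i)) + L y) + (L x' + ∑ i ∈ s', L (ι a₁) * L (ι (vv i)))
      = (L x + L y + L x') + ∑ i ∈ symmDiff s s', L (ι a₁) * L (ι (vv i)) := by
    rw [← sum_symmDiff2 hA]; abel
  rw [g4] at g3
  have g5 : Nr r (b * 1 * b) (L x + L y + L x') (L (x + y + x')) := by
    have h1 : Nr r b (L x + L y) (L (x + y)) := Nr.symm (hadd x y)
    have h2 : Nr r b (L (x + y) + L x') (L (x + y + x')) := Nr.symm (hadd (x + y) x')
    exact hr.trans hA (hr.nadd h1 (hr.refl hA _)) h2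
  have g6 := hr.trans hA g3 (hr.nadd g5 (hr.refl hA (∑ i ∈ symmDiff s s', L (ι a₁) * L (ι (vv i)))))
  refine g6.mono ?_
  have hBj1 : Bj j ≤ q ^ (K + 1) := (hBle j).trans (Nat.pow_le_pow_right hq1 (by omega))
  have hBj2 : Bj (j + 1) ≤ q ^ (K + 2) := (hBle (j + 1)).trans (Nat.pow_le_pow_right hq1 (by omega))
  calc b * (b * (Bj j * (b * (q * q'))) * (b * (Bj (j + 1) * q))) * (b * 1 * b * 1)
      ≤ q * (q * (q ^ (K + 1) * (q * (q * q))) * (q * (q ^ (K + 2) * q))) * (q * 1 * q * 1) := by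
        gcongr
    _ = q ^ (2 * K + 12) := by ring
    _ ≤ q ^ (2 * K + 14) := Nat.pow_le_pow_right hq1 (by omega)

end

end Pool.Agent.helper62.MF
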