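import Mathlib

/-!
# MP_141f81, Section 4 (prism form): dependent random choice with one anchor for all colours
-/

namespace Pool.Agent.helper62.MF

open Finset

open Classical in
/-- The 4-walks `b - a - b'' - a' - b'` of a bipartite graph. -/
noncomputable def walks {B A : Type*} [Fintype B] [Fintype A] (H : B → A → Prop) (b b' : B) :
    Finset (A × B × A) :=
  univ.filter fun t => H b t.1 ∧ H t.2.1 t.1 ∧ H t.2.1 t.2.2 ∧ H b' t.2.2

open Classical in
/-- Lower bound for the number of 4-walks through a set of good middle vertices. -/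
theorem walks_ge {B A : Type*} [Fintype B] [Fintype A] (H : B → A → Prop) (b b' : B)
    (G : Finset B) (x : ℝ) (hx : 0 ≤ x)
    (h1 : ∀ m ∈ G, x ≤ #{a | H b a ∧ H m a}) (h2 : ∀ m ∈ G, x ≤ #{a | H b' a ∧ H m a}) :
    #G * x ^ 2 ≤ (#(walks H b b') : ℝ) := by
  have key : (∑ m ∈ G, #{a | H b a ∧ H m a} * #{a | H b' a ∧ H m a}) ≤ #(walks H b b') := by
    have : ∑ m ∈ G, #{a | H b a ∧ H m a} * #{a | H b' a ∧ H m a}
        = #(G.sigma (fun m => (univ.filter fun a => H b a ∧ H m a) ×ˢ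
            (univ.filter fun a => H b' a ∧ H m a))) := by
      rw [Finset.card_sigma]
      simp only [Finset.card_product]
    rw [this]
    apply Finset.card_le_card_of_injOn (fun s => (s.2.1, s.1, s.2.2))
    · intro s hs
      simp only [coe_sigma, Set.mem_sigma_iff, mem_coe, mem_product, mem_filter, mem_univ,
        true_and] at hs
      simp only [walks, coe_filter, mem_univ, true_and, Set.mem_ofPred_eq]
      exact ⟨hs.2.1.1, hs.2.1.2, hs.2.2.2, hs.2.2.1⟩
    · rintro ⟨m, a, a'⟩ _ ⟨m', c, c'⟩ _ h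
      simp only [Prod.mk.injEq] at h
      obtain ⟨h1, h2, h3⟩ := h
      subst h1; subst h2; subst h3
      rfl
  have h3 : (#G * x ^ 2 : ℝ) ≤ ∑ m ∈ G, ((#{a | H b a ∧ H m a} : ℝ) * #{a | H b' a ∧ H m a}) := by
    rw [← nsmul_eq_mul, ← Finset.sum_const]
    apply Finset.sum_le_sum
    intro m hm
    have e1 := h1 m hm
    have e2 := h2 m hm
    nlinarith
  refine h3.trans ?_
  exact_mod_cast key

open Classical in
/-- Dependent random choice: one letter, several colours, one anchor. -/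
theorem drc {B P K : Type*} [Fintype B] [Fintype K] [Nonempty K] (n : ℕ) (hn : 0 < n)
    (H : B → Fin n → Prop) (Q : Finset P) (τ : K → P → B) (κ W δ θ η : ℝ)
    (hB : (Fintype.card B : ℝ) ≤ κ * n)
    (hδ : ∀ ρ ∈ Q, δ * n ≤ #{a | ∀ k, H (τ k ρ) a})
    (hW0 : 0 ≤ W) (hW : ∀ b, (#{ρ ∈ Q | ∃ k, τ k ρ = b} : ℝ) ≤ W) (hθ : 0 < θ) (hη : 0 ≤ η) :
    ∃ Hub : Finset B, (∀ b ∈ Hub, ∀ b' ∈ Hub, θ * η ^ 2 * n ^ 3 ≤ (#(walks H b b') : ℝ)) ∧
      δ * #Q - (3 * θ + κ ^ 2 * η / θ) * W * n ≤ #{ρ ∈ Q | ∀ k, τ k ρ ∈ Hub} := by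
  have hn' : (0 : ℝ) < n := by exact_mod_cast hn
  set Γ : Fin n → Finset B := fun a => univ.filter fun b => H b a with hΓ
  set cod : B → B → ℕ := fun b b' => #{a | H b a ∧ H b' a} with hcod
  set bp : Fin n → B → Finset B := fun a b => (Γ a).filter fun b' => (cod b b' : ℝ) < η * n with hbp
  set Dd : Fin n → Finset B := fun a => (Γ a).filter fun b => θ * n ≤ #(bp a b) with hDd
  set Hub : Fin n → Finset B := fun a => if 3 * θ * n ≤ #(Γ a) then Γ a \ Dd a else ∅ with hHub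
  -- property (a)
  have hpa : ∀ a, ∀ b ∈ Hub a, ∀ b' ∈ Hub a, θ * η ^ 2 * n ^ 3 ≤ (#(walks H b b') : ℝ) := by
    intro a b hb b' hb'
    by_cases hbig : 3 * θ * n ≤ #(Γ a)
    · simp only [hHub, hbig, if_true, mem_sdiff] at hb hb'
      have f1 : (#(bp a b) : ℝ) < θ * n := by
        by_contra h
        push Not at h
        exact hb.2 (by simp only [hDd, mem_filter]; exact ⟨hb.1, h⟩)
      have f2 : (#(bp a b') : ℝ) < θ * n := by
        by_contra h
        push Not at h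
        exact hb'.2 (by simp only [hDd, mem_filter]; exact ⟨hb'.1, h⟩)
      set G := Γ a \ (bp a b ∪ bp a b') with hG
      have hGc : θ * n ≤ #G := by
        have e1 : #(Γ a) ≤ #G + #(bp a b ∪ bp a b') := by
          have h1 : #(Γ a \ (bp a b ∪ bp a b')) + #(bp a b ∪ bp a b')
              = #(Γ a ∪ (bp a b ∪ bp a b')) := Finset.card_sdiff_add_card _ _
          have h2 : #(Γ a) ≤ #(Γ a ∪ (bp a b ∪ bp a b')) :=
            Finset.card_le_card Finset.subset_union_left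
          have h3 : #G = #(Γ a \ (bp a b ∪ bp a b')) := rfl
          rw [h3]
          omega
        have e2 : #(bp a b ∪ bp a b') ≤ #(bp a b) + #(bp a b') := Finset.card_union_le _ _
        have e3 : (#(Γ a) : ℝ) ≤ #G + (#(bp a b) + #(bp a b')) := by exact_mod_cast e1.trans (by omega)
        linarith
      have g1 : ∀ m ∈ G, η * n ≤ #{c | H b c ∧ H m c} := by
        intro m hm
        simp only [hG, mem_sdiff, mem_union, not_or] at hm
        by_contra h
        push Not at h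
        exact hm.2.1 (by simp only [hbp, mem_filter]; exact ⟨hm.1, h⟩)
      have g2 : ∀ m ∈ G, η * n ≤ #{c | H b' c ∧ H m c} := by
        intro m hm
        simp only [hG, mem_sdiff, mem_union, not_or] at hm
        by_contra h
        push Not at h
        exact hm.2.2 (by simp only [hbp, mem_filter]; exact ⟨hm.1, h⟩)
      have := walks_ge H b b' G (η * n) (by positivity) g1 g2
      have h4 : θ * η ^ 2 * n ^ 3 = (θ * n) * (η * n) ^ 2 := by ring
      rw [h4]
      refine le_trans ?_ this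
      apply mul_le_mul_of_nonneg_right hGc
      positivity
    · simp only [hHub, hbig, if_false] at hb
      simp at hb
  -- sum of `G a`
  set g : Fin n → ℝ := fun a => (#{ρ ∈ Q | ∀ k, τ k ρ ∈ Hub a} : ℝ) with hg
  have hsumG : δ * n * #Q ≤ ∑ a : Fin n, (#{ρ ∈ Q | ∀ k, τ k ρ ∈ Γ a} : ℝ) := by
    have e1 : ∑ a : Fin n, (#{ρ ∈ Q | ∀ k, τ k ρ ∈ Γ a} : ℝ)
        = ∑ ρ ∈ Q, (#{a | ∀ k, H (τ k ρ) a} : ℝ) := by
      simp only [hΓ, Finset.card_filter, mem_filter, mem_univ, true_and]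
      push_cast
      rw [Finset.sum_comm]
    rw [e1]
    calc δ * n * #Q = ∑ ρ ∈ Q, δ * n := by rw [Finset.sum_const, nsmul_eq_mul]; ring
      _ ≤ _ := Finset.sum_le_sum hδ
  -- elements through a set of vertices
  have hthrough : ∀ S : Finset B, (#{ρ ∈ Q | ∃ k, τ k ρ ∈ S} : ℝ) ≤ #S * W := by
    intro S
    have e1 : ({ρ ∈ Q | ∃ k, τ k ρ ∈ S} : Finset P) ⊆ S.biUnion fun b => {ρ ∈ Q | ∃ k, τ k ρ = b} := by
      intro ρ hρ
      simp only [mem_filter, mem_biUnion] at hρ ⊢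
      obtain ⟨h1, k, hk⟩ := hρ
      exact ⟨τ k ρ, hk, h1, k, rfl⟩
    have e2 : (#{ρ ∈ Q | ∃ k, τ k ρ ∈ S}) ≤ ∑ b ∈ S, #{ρ ∈ Q | ∃ k, τ k ρ = b} :=
      (Finset.card_le_card e1).trans Finset.card_biUnion_le
    calc (#{ρ ∈ Q | ∃ k, τ k ρ ∈ S} : ℝ) ≤ ((∑ b ∈ S, #{ρ ∈ Q | ∃ k, τ k ρ = b} : ℕ) : ℝ) := by
          exact_mod_cast e2
      _ = ∑ b ∈ S, (#{ρ ∈ Q | ∃ k, τ k ρ = b} : ℝ) := by push_cast; rfl
      _ ≤ ∑ b ∈ S, W := Finset.sum_le_sum (fun b _ => hW b)
      _ = #S * W := by rw [Finset.sum_const, nsmul_eq_mul]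
  have hGg : ∀ a, (#{ρ ∈ Q | ∀ k, τ k ρ ∈ Γ a} : ℝ) ≤ g a + (3 * θ * n * W + #(Dd a) * W) := by
    intro a
    have hg0 : 0 ≤ g a := by simp only [hg]; positivity
    by_cases hbig : 3 * θ * n ≤ #(Γ a)
    · have e1 : ({ρ ∈ Q | ∀ k, τ k ρ ∈ Γ a} : Finset P)
          ⊆ ({ρ ∈ Q | ∀ k, τ k ρ ∈ Hub a} : Finset P) ∪ {ρ ∈ Q | ∃ k, τ k ρ ∈ Dd a} := by
        intro ρ hρ
        simp only [mem_filter, mem_union] at hρ ⊢
        by_cases hD : ∃ k, τ k ρ ∈ Dd a
        · exact Or.inr ⟨hρ.1, hD⟩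
        · push Not at hD
          refine Or.inl ⟨hρ.1, fun k => ?_⟩
          simp only [hHub, hbig, if_true, mem_sdiff]
          exact ⟨hρ.2 k, hD k⟩
      have e2 : (#{ρ ∈ Q | ∀ k, τ k ρ ∈ Γ a} : ℝ) ≤ g a + #{ρ ∈ Q | ∃ k, τ k ρ ∈ Dd a} := by
        simp only [hg]
        exact_mod_cast (Finset.card_le_card e1).trans (Finset.card_union_le _ _)
      have e3 := hthrough (Dd a)
      have : 0 ≤ 3 * θ * n * W := by positivity
      linarith
    · push Not at hbig
      obtain ⟨k0⟩ := (inferInstance : Nonempty K)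
      have e1 : ({ρ ∈ Q | ∀ k, τ k ρ ∈ Γ a} : Finset P) ⊆ {ρ ∈ Q | ∃ k, τ k ρ ∈ Γ a} := by
        intro ρ hρ
        simp only [mem_filter] at hρ ⊢
        exact ⟨hρ.1, k0, hρ.2 k0⟩
      have e2 : (#{ρ ∈ Q | ∀ k, τ k ρ ∈ Γ a} : ℝ) ≤ #{ρ ∈ Q | ∃ k, τ k ρ ∈ Γ a} := by
        exact_mod_cast Finset.card_le_card e1
      have e3 := hthrough (Γ a)
      have e4 : (#(Γ a) : ℝ) * W ≤ 3 * θ * n * W := mul_le_mul_of_nonneg_right hbig.le hW0
      have e5 : 0 ≤ (#(Dd a) : ℝ) * W := by positivity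
      linarith
  -- the sum of `#(Dd a)`
  have hsumD : (∑ a : Fin n, (#(Dd a) : ℝ)) * (θ * n) ≤ κ ^ 2 * n ^ 2 * (η * n) := by
    have e1 : ∀ a, (#(Dd a) : ℝ) * (θ * n) ≤ ∑ b ∈ Γ a, (#(bp a b) : ℝ) := by
      intro a
      calc (#(Dd a) : ℝ) * (θ * n) = ∑ b ∈ Dd a, θ * n := by rw [Finset.sum_const, nsmul_eq_mul]
        _ ≤ ∑ b ∈ Dd a, (#(bp a b) : ℝ) := by
            apply Finset.sum_le_sum
            intro b hb
            simp only [hDd, mem_filter] at hb
            exact hb.2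
        _ ≤ ∑ b ∈ Γ a, (#(bp a b) : ℝ) := by
            apply Finset.sum_le_sum_of_subset_of_nonneg
            · exact Finset.filter_subset _ _
            · intro b _ _; positivity
    have e2 : ∑ a : Fin n, ∑ b ∈ Γ a, (#(bp a b) : ℝ)
        = ∑ b : B, ∑ b' : B, (if (cod b b' : ℝ) < η * n then (cod b b' : ℝ) else 0) := by
      have : ∀ a : Fin n, ∑ b ∈ Γ a, (#(bp a b) : ℝ)
          = ∑ b : B, ∑ b' : B, (if (cod b b' : ℝ) < η * n then
              (if H b a ∧ H b' a then (1 : ℝ) else 0) else 0) := by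
        intro a
        simp only [hΓ, hbp, Finset.sum_filter, Finset.card_filter]
        push_cast
        apply Finset.sum_congr rfl
        intro b _
        by_cases hb : H b a
        · simp only [hb, if_true, true_and]
          apply Finset.sum_congr rfl
          intro b' _
          by_cases h1 : (cod b b' : ℝ) < η * n <;> by_cases h2 : H b' a <;> simp [h1, h2]
        · simp [hb]
      simp_rw [this]
      rw [Finset.sum_comm]
      apply Finset.sum_congr rfl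
      intro b _
      rw [Finset.sum_comm]
      apply Finset.sum_congr rfl
      intro b' _
      by_cases h1 : (cod b b' : ℝ) < η * n
      · simp only [h1, if_true]
        simp only [hcod, Finset.card_filter]
        push_cast
        rfl
      · simp only [h1, if_false, Finset.sum_const_zero]
    have e3 : ∑ b : B, ∑ b' : B, (if (cod b b' : ℝ) < η * n then (cod b b' : ℝ) else 0)
        ≤ ∑ b : B, ∑ b' : B, η * n := by
      apply Finset.sum_le_sum
      intro b _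
      apply Finset.sum_le_sum
      intro b' _
      split_ifs with h
      · exact h.le
      · positivity
    have e4 : ∑ _b : B, ∑ _b' : B, η * (n : ℝ) = (Fintype.card B : ℝ) ^ 2 * (η * n) := by
      rw [Finset.sum_const, Finset.sum_const, nsmul_eq_mul, nsmul_eq_mul, Finset.card_univ]
      ring
    have e5 : (Fintype.card B : ℝ) ^ 2 ≤ (κ * n) ^ 2 :=
      pow_le_pow_left₀ (by positivity) hB 2
    calc (∑ a : Fin n, (#(Dd a) : ℝ)) * (θ * n) = ∑ a : Fin n, (#(Dd a) : ℝ) * (θ * n) := by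
          rw [Finset.sum_mul]
      _ ≤ ∑ a : Fin n, ∑ b ∈ Γ a, (#(bp a b) : ℝ) := Finset.sum_le_sum (fun a _ => e1 a)
      _ ≤ (Fintype.card B : ℝ) ^ 2 * (η * n) := by rw [e2, ← e4]; exact e3
      _ ≤ (κ * n) ^ 2 * (η * n) := by
          apply mul_le_mul_of_nonneg_right e5
          positivity
      _ = _ := by ring
  have hsumD' : (∑ a : Fin n, (#(Dd a) : ℝ)) ≤ κ ^ 2 * η / θ * n ^ 2 := by
    have h1 : 0 < θ * n := by positivity
    rw [← mul_le_mul_iff_of_pos_right h1]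
    refine hsumD.trans (le_of_eq ?_)
    field_simp
  -- conclusion by averaging
  have htot : (n : ℝ) * (δ * #Q - (3 * θ + κ ^ 2 * η / θ) * W * n) ≤ ∑ a : Fin n, g a := by
    have e1 : ∑ a : Fin n, (#{ρ ∈ Q | ∀ k, τ k ρ ∈ Γ a} : ℝ)
        ≤ ∑ a : Fin n, (g a + (3 * θ * n * W + #(Dd a) * W)) := Finset.sum_le_sum (fun a _ => hGg a)
    have e2 : ∑ a : Fin n, (g a + (3 * θ * n * W + #(Dd a) * W))
        = ∑ a : Fin n, g a + (n * (3 * θ * n * W) + (∑ a : Fin n, (#(Dd a) : ℝ)) * W) := by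
      rw [Finset.sum_add_distrib, Finset.sum_add_distrib, Finset.sum_const, nsmul_eq_mul,
        Finset.card_univ, Fintype.card_fin, Finset.sum_mul]
    have e3 : (∑ a : Fin n, (#(Dd a) : ℝ)) * W ≤ κ ^ 2 * η / θ * n ^ 2 * W :=
      mul_le_mul_of_nonneg_right hsumD' hW0
    have e4 : (n : ℝ) * (δ * #Q - (3 * θ + κ ^ 2 * η / θ) * W * n)
        = δ * n * #Q - n * (3 * θ * n * W) - κ ^ 2 * η / θ * n ^ 2 * W := by ring
    rw [e4]
    linarith
  have hne : (univ : Finset (Fin n)).Nonempty := by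
    rw [← Finset.card_pos, Finset.card_univ, Fintype.card_fin]; exact hn
  obtain ⟨a, _, ha⟩ := Finset.exists_le_of_sum_le (f := fun _ : Fin n =>
      δ * #Q - (3 * θ + κ ^ 2 * η / θ) * W * n) (g := g) hne (by
    rw [Finset.sum_const, nsmul_eq_mul, Finset.card_univ, Fintype.card_fin]; exact htot)
  exact ⟨Hub a, hpa a, ha⟩

end Pool.Agent.helper62.MF
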