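import Mathlib
import Pool.Agent.helper62.MF.Drc

/-!
# MP_141f81, Section 4 (prism form): hubs for all near letters

`P` rows, `R : Finset P`, near symbols `sym v ρ` (`v : V` near roles), far symbols `f i ρ` (`i = 0, 1, 2`),
`g ρ`; `key ρ` is the `g`-less part of the row.
-/

namespace Pool.Agent.helper62.MF

open Finset

/-- Density after `k` near roles. -/
noncomputable def dK (c : ℝ) (k : ℕ) : ℝ := (c / 4) ^ k * (c / 2)
/-- The parameter `θ`. -/
noncomputable def thC (c : ℝ) (m : ℕ) : ℝ := c / 2 * dK c m / 12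
/-- The parameter `η`. -/
noncomputable def etC (c : ℝ) (m : ℕ) : ℝ := thC c m * (c / 2) * dK c m / 36
/-- The final constant. -/
noncomputable def dC (c : ℝ) (m : ℕ) : ℝ := min (dK c m) (thC c m * etC c m ^ 2)

theorem dK_pos {c : ℝ} (hc : 0 < c) (k : ℕ) : 0 < dK c k := by unfold dK; positivity
theorem thC_pos {c : ℝ} (hc : 0 < c) (m : ℕ) : 0 < thC c m := by
  have := dK_pos hc m
  unfold thC; positivity
theorem etC_pos {c : ℝ} (hc : 0 < c) (m : ℕ) : 0 < etC c m := by
  have := dK_pos hc m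
  have := thC_pos hc m
  unfold etC; positivity
theorem dC_pos {c : ℝ} (hc : 0 < c) (m : ℕ) : 0 < dC c m := by
  have h1 := dK_pos hc m
  have h2 := thC_pos hc m
  have h3 := etC_pos hc m
  unfold dC
  exact lt_min h1 (by positivity)

/-- The link of a near letter: `(i, t) ~ a` iff a row contains the letter, `t` (colour `i`) and `a`. -/
def lnk {P V : Type*} {n : ℕ} (R : Finset P) (sym : V → P → Fin n) (f : Fin 3 → P → Fin n)
    (g : P → Fin n) (v : V) (x : Fin n) (b : Fin 3 × Fin n) (a : Fin n) : Prop :=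
  ∃ ρ ∈ R, sym v ρ = x ∧ f b.1 ρ = b.2 ∧ g ρ = a

open Classical in
/-- CLEAN: hubs for all near letters, all three colours at once. -/
theorem clean {P V Key : Type*} [Fintype V] (n r : ℕ) (hn : 0 < n) (c : ℝ) (hc : 0 < c)
    (R : Finset P) (sym : V → P → Fin n) (f : Fin 3 → P → Fin n) (g : P → Fin n) (key : P → Key)
    (hsize : c * n ^ (r + 3) ≤ #R)
    (hsym : ∀ ρ ∈ R, ∀ ρ' ∈ R, key ρ = key ρ' → ∀ v, sym v ρ = sym v ρ')
    (hf : ∀ ρ ∈ R, ∀ ρ' ∈ R, key ρ = key ρ' → ∀ i, f i ρ = f i ρ')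
    (hinj : ∀ ρ ∈ R, ∀ ρ' ∈ R, key ρ = key ρ' → g ρ = g ρ' → ρ = ρ')
    (hkey : #(R.image key) ≤ n ^ (r + 2))
    (hthr : ∀ v x i t, #{ρ ∈ R | sym v ρ = x ∧ f i ρ = t} ≤ n ^ (r + 1)) :
    ∃ Hub : V → Fin n → Finset (Fin 3 × Fin n),
      (∀ v x, ∀ b ∈ Hub v x, ∀ b' ∈ Hub v x,
        dC c (Fintype.card V) * n ^ 3 ≤ (#(walks (lnk R sym f g v x) b b') : ℝ)) ∧
      dC c (Fintype.card V) * n ^ (r + 3)
        ≤ (#{ρ ∈ R | ∀ v i, (i, f i ρ) ∈ Hub v (sym v ρ)} : ℝ) := by
  have hn' : (0 : ℝ) < n := by exact_mod_cast hn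
  set m := Fintype.card V with hm
  set δ : ℝ := c / 2 with hδd
  set E : P → ℕ := fun ρ => #{a : Fin n | ∃ ρ' ∈ R, key ρ' = key ρ ∧ g ρ' = a} with hE
  set Q : Finset P := {ρ ∈ R | δ * n ≤ E ρ} with hQ
  -- fibres of `key` in `R`
  have hfib : ∀ ρ ∈ R, #{ρ' ∈ R | key ρ' = key ρ} ≤ E ρ := by
    intro ρ _
    apply Finset.card_le_card_of_injOn g
    · intro ρ' hρ'
      simp only [coe_filter, Set.mem_ofPred_eq, mem_univ, true_and] at hρ' ⊢
      exact ⟨ρ', hρ'.1, hρ'.2, rfl⟩
    · intro ρ' hρ' ρ'' hρ'' h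
      simp only [coe_filter, Set.mem_ofPred_eq] at hρ' hρ''
      exact hinj ρ' hρ'.1 ρ'' hρ''.1 (hρ'.2.trans hρ''.2.symm) h
  have hc1 : c ≤ 1 := by
    have h1 : #R ≤ n * #(R.image key) := by
      apply Finset.card_le_mul_card_image
      intro k hk
      obtain ⟨ρ, hρ, rfl⟩ := Finset.mem_image.1 hk
      refine (hfib ρ hρ).trans ?_
      simp only [hE]
      refine (Finset.card_le_univ _).trans ?_
      simp
    have h2 : #R ≤ n * n ^ (r + 2) := h1.trans (Nat.mul_le_mul_left _ hkey)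
    have h3 : (#R : ℝ) ≤ n ^ (r + 3) := by
      have : (#R : ℝ) ≤ n * n ^ (r + 2) := by exact_mod_cast h2
      calc (#R : ℝ) ≤ n * n ^ (r + 2) := this
        _ = n ^ (r + 3) := by ring
    have h4 : c * (n : ℝ) ^ (r + 3) ≤ 1 * (n : ℝ) ^ (r + 3) := by linarith
    exact le_of_mul_le_mul_right h4 (by positivity)
  have hQcard : δ * n ^ (r + 3) ≤ #Q := by
    have h1 : #(R \ Q) = ∑ k ∈ (R \ Q).image key, #{ρ ∈ R \ Q | key ρ = k} :=
      Finset.card_eq_sum_card_image key (R \ Q)
    have h2 : (#(R \ Q) : ℝ) ≤ ∑ k ∈ (R \ Q).image key, δ * n := by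
      rw [h1]
      push_cast
      apply Finset.sum_le_sum
      intro k hk
      obtain ⟨ρ, hρ, rfl⟩ := Finset.mem_image.1 hk
      rw [Finset.mem_sdiff] at hρ
      have e1 : ¬ (δ * n ≤ E ρ) := by
        intro h; exact hρ.2 (by simp only [hQ, mem_filter]; exact ⟨hρ.1, h⟩)
      push Not at e1
      have e2 : #{ρ' ∈ R \ Q | key ρ' = key ρ} ≤ #{ρ' ∈ R | key ρ' = key ρ} := by
        apply Finset.card_le_card
        intro ρ' h
        simp only [mem_filter, mem_sdiff] at h ⊢
        exact ⟨h.1.1, h.2⟩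
      have e3 : (#{ρ' ∈ R \ Q | key ρ' = key ρ} : ℝ) ≤ E ρ := by
        exact_mod_cast e2.trans (hfib ρ hρ.1)
      linarith
    have h3 : ∑ k ∈ (R \ Q).image key, δ * (n : ℝ) = #((R \ Q).image key) * (δ * n) := by
      rw [Finset.sum_const, nsmul_eq_mul]
    have h4 : (#((R \ Q).image key) : ℝ) ≤ (n : ℝ) ^ (r + 2) := by
      have : #((R \ Q).image key) ≤ n ^ (r + 2) :=
        (Finset.card_le_card (Finset.image_subset_image Finset.sdiff_subset)).trans hkey
      exact_mod_cast this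
    have h5 : (#((R \ Q).image key) : ℝ) * (δ * n) ≤ (n : ℝ) ^ (r + 2) * (δ * n) :=
      mul_le_mul_of_nonneg_right h4 (by positivity)
    have h6 : #(R \ Q) + #Q = #R := by
      apply Finset.card_sdiff_add_card_eq_card
      exact Finset.filter_subset _ _
    have h7 : (#(R \ Q) : ℝ) + #Q = #R := by exact_mod_cast h6
    have h8 : (n : ℝ) ^ (r + 2) * (δ * n) = δ * n ^ (r + 3) := by ring
    have h9 : c * (n : ℝ) ^ (r + 3) = δ * n ^ (r + 3) + δ * n ^ (r + 3) := by rw [hδd]; ring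
    linarith
  have hQR : Q ⊆ R := Finset.filter_subset _ _
  -- the iteration
  set θ := thC c m with hθ
  set η := etC c m with hη
  have hθ0 : 0 < θ := thC_pos hc m
  have hη0 : 0 < η := etC_pos hc m
  have hiter : ∀ s : Finset V, ∃ Hub : V → Fin n → Finset (Fin 3 × Fin n),
      (∀ v x, ∀ b ∈ Hub v x, ∀ b' ∈ Hub v x,
        θ * η ^ 2 * n ^ 3 ≤ (#(walks (lnk R sym f g v x) b b') : ℝ)) ∧
      dK c #s * n ^ (r + 3)
        ≤ (#{ρ ∈ Q | ∀ v ∈ s, ∀ i, (i, f i ρ) ∈ Hub v (sym v ρ)} : ℝ) := by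
    intro s
    induction s using Finset.induction_on with
    | empty =>
      refine ⟨fun _ _ => ∅, ?_, ?_⟩
      · intro v x b hb; simp at hb
      · simp only [Finset.card_empty, notMem_empty, false_implies, implies_true, filter_true]
        unfold dK
        rw [pow_zero, one_mul]
        exact hQcard
    | insert v0 s hv0 ih =>
      obtain ⟨Hub, hw, hcard⟩ := ih
      set Qs : Finset P := {ρ ∈ Q | ∀ v ∈ s, ∀ i, (i, f i ρ) ∈ Hub v (sym v ρ)} with hQs
      have hQsQ : Qs ⊆ Q := Finset.filter_subset _ _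
      have hx : ∀ x : Fin n, ∃ Hx : Finset (Fin 3 × Fin n),
          (∀ b ∈ Hx, ∀ b' ∈ Hx,
            θ * η ^ 2 * n ^ 3 ≤ (#(walks (lnk R sym f g v0 x) b b') : ℝ)) ∧
          δ * #{ρ ∈ Qs | sym v0 ρ = x} - (3 * θ + 3 ^ 2 * η / θ) * (n : ℝ) ^ (r + 1) * n
            ≤ #{ρ ∈ ({ρ ∈ Qs | sym v0 ρ = x} : Finset P) | ∀ k, (k, f k ρ) ∈ Hx} := by
        intro x
        refine Exists.imp (fun Hx h => ⟨h.1, h.2.trans (Nat.cast_le.2 (Finset.card_le_card ?_))⟩)
          (drc n hn (lnk R sym f g v0 x) {ρ ∈ Qs | sym v0 ρ = x} (fun k ρ => (k, f k ρ))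
          3 ((n : ℝ) ^ (r + 1)) δ θ η ?_ ?_ ?_ ?_ hθ0 hη0.le)
        · simp
        · intro ρ hρ
          rw [mem_filter] at hρ
          have hρQ : ρ ∈ Q := hQsQ hρ.1
          have hρR : ρ ∈ R := hQR hρQ
          have h1 : δ * n ≤ E ρ := by
            simp only [hQ, mem_filter] at hρQ; exact hρQ.2
          refine h1.trans (Nat.cast_le.2 (Finset.card_le_card ?_))
          intro a ha
          simp only [mem_filter, mem_univ, true_and] at ha ⊢
          obtain ⟨ρ', hρ', hk, hg⟩ := ha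
          intro k
          refine ⟨ρ', hρ', ?_, hf ρ' hρ' ρ hρR hk k, hg⟩
          rw [hsym ρ' hρ' ρ hρR hk v0]
          exact hρ.2
        · positivity
        · intro b
          have h2 : (#{ρ ∈ R | sym v0 ρ = x ∧ f b.1 ρ = b.2} : ℝ) ≤ (n : ℝ) ^ (r + 1) := by
            exact_mod_cast hthr v0 x b.1 b.2
          refine le_trans (Nat.cast_le.2 (Finset.card_le_card ?_)) h2
          intro ρ hρ
          simp only [mem_filter] at hρ ⊢
          obtain ⟨⟨h2, h3⟩, k, hk⟩ := hρ
          refine ⟨hQR (hQsQ h2), h3, ?_⟩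
          rw [← hk]
        · intro ρ hρ
          simp only [mem_filter] at hρ ⊢
          exact hρ
      choose Hx hHx1 hHx2 using hx
      refine ⟨Function.update Hub v0 Hx, ?_, ?_⟩
      · intro v x b hb b' hb'
        by_cases hv : v = v0
        · subst hv
          simp only [Function.update_self] at hb hb'
          exact hHx1 x b hb b' hb'
        · simp only [Function.update_of_ne hv] at hb hb'
          exact hw v x b hb b' hb'
      · -- the count
        have e1 : ({ρ ∈ Qs | ∀ i, (i, f i ρ) ∈ Hx (sym v0 ρ)} : Finset P)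
            ⊆ {ρ ∈ Q | ∀ v ∈ insert v0 s, ∀ i, (i, f i ρ) ∈
                Function.update Hub v0 Hx v (sym v ρ)} := by
          intro ρ hρ
          simp only [hQs, mem_filter] at hρ ⊢
          refine ⟨hρ.1.1, ?_⟩
          intro v hv i
          by_cases hvv : v = v0
          · subst hvv
            simp only [Function.update_self]
            exact hρ.2 i
          · rw [Finset.mem_insert] at hv
            simp only [Function.update_of_ne hvv]
            exact hρ.1.2 v (hv.resolve_left hvv) i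
        have e2 : #{ρ ∈ Qs | ∀ i, (i, f i ρ) ∈ Hx (sym v0 ρ)}
            = ∑ x : Fin n, #{ρ ∈ ({ρ ∈ Qs | sym v0 ρ = x} : Finset P) | ∀ k, (k, f k ρ) ∈ Hx x} := by
          rw [Finset.card_eq_sum_card_fiberwise (f := fun ρ => sym v0 ρ) (t := univ)
            (fun _ _ => by simp)]
          apply Finset.sum_congr rfl
          intro x _
          congr 1
          ext ρ
          simp only [mem_filter]
          constructor
          · rintro ⟨⟨h1, h2⟩, h3⟩
            exact ⟨⟨h1, h3⟩, by rw [← h3]; exact h2⟩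
          · rintro ⟨⟨h1, h3⟩, h2⟩
            exact ⟨⟨h1, by rw [h3]; exact h2⟩, h3⟩
        have e3 : (#Qs : ℝ) = ∑ x : Fin n, (#{ρ ∈ Qs | sym v0 ρ = x} : ℝ) := by
          rw [Finset.card_eq_sum_card_fiberwise (f := fun ρ => sym v0 ρ) (t := univ)
            (fun _ _ => by simp)]
          push_cast
          rfl
        have e4 : δ * #Qs - (3 * θ + 3 ^ 2 * η / θ) * (n : ℝ) ^ (r + 3)
            ≤ (#{ρ ∈ Qs | ∀ i, (i, f i ρ) ∈ Hx (sym v0 ρ)} : ℝ) := by
          rw [e2, e3]
          push_cast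
          have h1 : ∑ x : Fin n, (δ * (#{ρ ∈ Qs | sym v0 ρ = x} : ℝ)
              - (3 * θ + 3 ^ 2 * η / θ) * (n : ℝ) ^ (r + 1) * n)
              ≤ ∑ x : Fin n,
                (#{ρ ∈ ({ρ ∈ Qs | sym v0 ρ = x} : Finset P) | ∀ k, (k, f k ρ) ∈ Hx x} : ℝ) :=
            Finset.sum_le_sum (fun x _ => hHx2 x)
          rw [Finset.sum_sub_distrib, ← Finset.mul_sum, Finset.sum_const, nsmul_eq_mul,
            Finset.card_univ, Fintype.card_fin] at h1
          have h2 : (n : ℝ) * ((3 * θ + 3 ^ 2 * η / θ) * (n : ℝ) ^ (r + 1) * n)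
              = (3 * θ + 3 ^ 2 * η / θ) * (n : ℝ) ^ (r + 3) := by ring
          rw [h2] at h1
          exact h1
        have e5 : dK c #(insert v0 s) * (n : ℝ) ^ (r + 3)
            ≤ δ * #Qs - (3 * θ + 3 ^ 2 * η / θ) * (n : ℝ) ^ (r + 3) := by
          rw [Finset.card_insert_of_notMem hv0]
          have hle : dK c m ≤ dK c #s := by
            unfold dK
            apply mul_le_mul_of_nonneg_right _ (by positivity)
            apply pow_le_pow_of_le_one (by positivity) (by linarith)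
            rw [hm]; exact Finset.card_le_univ s
          have h1 : 3 * θ = δ * dK c m / 4 := by rw [hθ, hδd]; unfold thC; ring
          have h2 : 3 ^ 2 * η / θ = δ * dK c m / 4 := by
            have : η = θ * (c / 2) * dK c m / 36 := by rw [hη]; unfold etC; rw [← hθ]
            rw [this, hδd]
            field_simp
            ring
          have h3 : dK c (#s + 1) = δ / 2 * dK c #s := by unfold dK; rw [pow_succ, hδd]; ring
          rw [h1, h2, h3]
          have h4 : δ * (dK c #s * n ^ (r + 3)) ≤ δ * #Qs :=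
            mul_le_mul_of_nonneg_left hcard (by positivity)
          have h5 : δ * dK c m * (n : ℝ) ^ (r + 3) ≤ δ * dK c #s * (n : ℝ) ^ (r + 3) := by
            apply mul_le_mul_of_nonneg_right _ (by positivity)
            apply mul_le_mul_of_nonneg_left hle (by positivity)
          nlinarith
        have e6 : (#{ρ ∈ Qs | ∀ i, (i, f i ρ) ∈ Hx (sym v0 ρ)} : ℝ)
            ≤ #{ρ ∈ Q | ∀ v ∈ insert v0 s, ∀ i, (i, f i ρ) ∈
                Function.update Hub v0 Hx v (sym v ρ)} := by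
          exact_mod_cast Finset.card_le_card e1
        linarith
  obtain ⟨Hub, h1, h2⟩ := hiter univ
  refine ⟨Hub, ?_, ?_⟩
  · intro v x b hb b' hb'
    refine le_trans ?_ (h1 v x b hb b' hb')
    apply mul_le_mul_of_nonneg_right _ (by positivity)
    exact min_le_right _ _
  · rw [Finset.card_univ, ← hm] at h2
    refine le_trans ?_ (h2.trans ?_)
    · apply mul_le_mul_of_nonneg_right _ (by positivity)
      exact min_le_left _ _
    · have : #{ρ ∈ Q | ∀ v ∈ (univ : Finset V), ∀ i, (i, f i ρ) ∈ Hub v (sym v ρ)}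
          ≤ #{ρ ∈ R | ∀ v i, (i, f i ρ) ∈ Hub v (sym v ρ)} := by
        apply Finset.card_le_card
        intro ρ hρ
        simp only [mem_filter, mem_univ, true_implies] at hρ ⊢
        exact ⟨hQR hρ.1, hρ.2⟩
      exact_mod_cast this

end Pool.Agent.helper62.MF
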