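import Mathlib

/-!
# MP_141f81, Section 4 (prism form): the choice of the base element

`sel`: a finite set `W` of possible base rows with weights `f` (number of rows over `w`), finitely many
types `τ`, for each type a finite set `𝒜 τ` of patterns and a relation `rel τ a w` (the pattern `a` is
compatible with `w`).  There is one `w` of large weight which, for every type, is compatible with few
unpopular patterns.
-/

namespace Pool.Agent.helper62.MF

open Finset

open Classical in
theorem sel {W T : Type*} [Fintype W] [Fintype T] {α : T → Type*}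
    (𝒜 : ∀ τ, Finset (α τ)) (rel : ∀ τ, α τ → W → Prop)
    (M Y c : ℝ) (hM0 : 0 < M) (hM : (Fintype.card W : ℝ) ≤ M) (hY : 0 < Y) (hc : 0 < c)
    (f : W → ℝ) (hf : ∀ w, f w ≤ Y) (hsum : c * M * Y ≤ ∑ w, f w)
    (γ : T → ℝ) (hγ : ∀ τ, 0 < γ τ) (D : T → ℝ) (hD : ∀ τ, (#(𝒜 τ) : ℝ) ≤ D τ) :
    ∃ w, c / 2 * Y ≤ f w ∧ ∀ τ,
      (#{a ∈ 𝒜 τ | rel τ a w ∧ (#{w' | rel τ a w'} : ℝ) < γ τ * M} : ℝ)
        ≤ 2 * Fintype.card T / c * γ τ * D τ := by
  set W1 : Finset W := univ.filter (fun w => c / 2 * Y ≤ f w) with hW1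
  set bad : T → W → ℝ := fun τ w =>
    (#{a ∈ 𝒜 τ | rel τ a w ∧ (#{w' | rel τ a w'} : ℝ) < γ τ * M} : ℝ) with hbad
  -- `W1` is large
  have hW1card : c / 2 * M ≤ #W1 := by
    have h1 : ∑ w, f w ≤ ∑ w, ((if w ∈ W1 then Y else 0) + c / 2 * Y) := by
      apply Finset.sum_le_sum
      intro w _
      by_cases hw : w ∈ W1
      · simp only [hw, if_true]
        have := hf w
        have h2 : 0 ≤ c / 2 * Y := by positivity
        linarith
      · simp only [hw, if_false]
        have : ¬ (c / 2 * Y ≤ f w) := by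
          intro h; exact hw (by simp [hW1, h])
        linarith
    have h2 : ∑ w, ((if w ∈ W1 then Y else 0) + c / 2 * Y)
        = #W1 * Y + Fintype.card W * (c / 2 * Y) := by
      rw [Finset.sum_add_distrib, Finset.sum_ite_mem, Finset.univ_inter, Finset.sum_const,
        Finset.sum_const, nsmul_eq_mul, nsmul_eq_mul, Finset.card_univ]
    have h3 : (Fintype.card W : ℝ) * (c / 2 * Y) ≤ M * (c / 2 * Y) := by
      apply mul_le_mul_of_nonneg_right hM; positivity
    have h4 : c / 2 * M * Y ≤ #W1 * Y := by nlinarith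
    exact le_of_mul_le_mul_right h4 hY
  have hbad0 : ∀ τ w, 0 ≤ bad τ w := fun τ w => by simp only [hbad]; positivity
  -- the sum of the bad patterns of one type
  have hsumbad : ∀ τ, ∑ w, bad τ w ≤ γ τ * M * D τ := by
    intro τ
    have h1 : ∑ w, bad τ w = ∑ a ∈ 𝒜 τ, (#{w | rel τ a w ∧ (#{w' | rel τ a w'} : ℝ) < γ τ * M} : ℝ) := by
      simp only [hbad, Finset.card_filter]
      push_cast
      rw [Finset.sum_comm]
    rw [h1]
    have h2 : ∀ a ∈ 𝒜 τ,
        (#{w | rel τ a w ∧ (#{w' | rel τ a w'} : ℝ) < γ τ * M} : ℝ) ≤ γ τ * M := by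
      intro a _
      by_cases h : (#{w' | rel τ a w'} : ℝ) < γ τ * M
      · have : (#{w | rel τ a w ∧ (#{w' | rel τ a w'} : ℝ) < γ τ * M} : ℝ)
            ≤ (#{w' | rel τ a w'} : ℝ) := by
          exact_mod_cast Finset.card_le_card (fun w hw => by
            simp only [mem_filter, mem_univ, true_and] at hw ⊢
            exact hw.1)
        linarith
      · have h0 : (#{w | rel τ a w ∧ (#{w' | rel τ a w'} : ℝ) < γ τ * M}) = 0 := by
          rw [Finset.card_eq_zero, Finset.filter_eq_empty_iff]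
          intro w _ hw
          exact h hw.2
        rw [h0]
        have := hγ τ
        simp only [Nat.cast_zero]
        positivity
    calc ∑ a ∈ 𝒜 τ, (#{w | rel τ a w ∧ (#{w' | rel τ a w'} : ℝ) < γ τ * M} : ℝ)
        ≤ ∑ a ∈ 𝒜 τ, γ τ * M := Finset.sum_le_sum h2
      _ = #(𝒜 τ) * (γ τ * M) := by rw [Finset.sum_const, nsmul_eq_mul]
      _ ≤ D τ * (γ τ * M) := by
          apply mul_le_mul_of_nonneg_right (hD τ)
          have := hγ τ
          positivity
      _ = γ τ * M * D τ := by ring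
  by_contra hcon
  push Not at hcon
  -- every `w ∈ W1` violates one of the bounds
  have hviol : ∀ w ∈ W1, 2 * Fintype.card T / c < ∑ τ, bad τ w / (γ τ * D τ) := by
    intro w hw
    have hw' : c / 2 * Y ≤ f w := by simpa [hW1] using hw
    obtain ⟨τ, hτ⟩ := hcon w hw'
    have hτ' : 2 * Fintype.card T / c * γ τ * D τ < bad τ w := hτ
    have hDpos : 0 < D τ := by
      rcases (lt_or_eq_of_le ((Nat.cast_nonneg _).trans (hD τ))) with h | h
      · exact h
      · exfalso
        have h0 : #(𝒜 τ) = 0 := by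
          have := hD τ
          rw [← h] at this
          exact_mod_cast le_antisymm this (Nat.cast_nonneg _)
        have h1 : bad τ w = 0 := by
          simp only [hbad]
          rw [Finset.card_eq_zero.1 h0]
          simp
        rw [h1, ← h] at hτ'
        simp at hτ'
    have hpos : 0 < γ τ * D τ := mul_pos (hγ τ) hDpos
    have h1 : 2 * Fintype.card T / c < bad τ w / (γ τ * D τ) := by
      rw [lt_div_iff₀ hpos]
      linarith
    have h2 : bad τ w / (γ τ * D τ) ≤ ∑ τ, bad τ w / (γ τ * D τ) := by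
      apply Finset.single_le_sum (f := fun τ => bad τ w / (γ τ * D τ)) _ (mem_univ τ)
      intro τ' _
      have h3 : 0 ≤ D τ' := (Nat.cast_nonneg _).trans (hD τ')
      have h4 := hγ τ'
      have h5 := hbad0 τ' w
      positivity
    linarith
  have hne : W1.Nonempty := by
    rw [← Finset.card_pos]
    have : 0 < c / 2 * M := by positivity
    exact_mod_cast this.trans_le hW1card
  have hTpos : 0 < (Fintype.card T : ℝ) := by
    obtain ⟨w, hw⟩ := hne
    have hw' : c / 2 * Y ≤ f w := by simpa [hW1] using hw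
    obtain ⟨τ, _⟩ := hcon w hw'
    exact_mod_cast Fintype.card_pos_iff.2 ⟨τ⟩
  have h1 : #W1 * (2 * Fintype.card T / c) < ∑ w ∈ W1, ∑ τ, bad τ w / (γ τ * D τ) := by
    rw [← nsmul_eq_mul, ← Finset.sum_const]
    exact Finset.sum_lt_sum_of_nonempty hne hviol
  have h2 : ∑ w ∈ W1, ∑ τ, bad τ w / (γ τ * D τ) ≤ ∑ w, ∑ τ, bad τ w / (γ τ * D τ) := by
    apply Finset.sum_le_sum_of_subset_of_nonneg (Finset.subset_univ _)
    intro w _ _
    apply Finset.sum_nonneg
    intro τ' _
    have h3 : 0 ≤ D τ' := (Nat.cast_nonneg _).trans (hD τ')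
    have h4 := hγ τ'
    have h5 := hbad0 τ' w
    positivity
  have h3 : ∑ w, ∑ τ, bad τ w / (γ τ * D τ) ≤ Fintype.card T * M := by
    rw [Finset.sum_comm]
    have h4 : ∀ τ ∈ (univ : Finset T), ∑ w, bad τ w / (γ τ * D τ) ≤ M := by
      intro τ _
      rw [← Finset.sum_div]
      have h5 : 0 ≤ D τ := (Nat.cast_nonneg _).trans (hD τ)
      rcases (lt_or_eq_of_le h5) with h | h
      · rw [div_le_iff₀ (mul_pos (hγ τ) h)]
        have := hsumbad τ
        linarith
      · rw [← h, mul_zero, div_zero]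
        exact hM0.le
    calc ∑ τ, ∑ w, bad τ w / (γ τ * D τ) ≤ ∑ _τ : T, M := Finset.sum_le_sum h4
      _ = Fintype.card T * M := by rw [Finset.sum_const, nsmul_eq_mul, Finset.card_univ]
  have h4 : #W1 * (2 * Fintype.card T / c) < Fintype.card T * M := h1.trans_le (h2.trans h3)
  have h5 : (c / 2 * M) * (2 * Fintype.card T / c) ≤ #W1 * (2 * Fintype.card T / c) := by
    apply mul_le_mul_of_nonneg_right hW1card
    positivity
  have h6 : (c / 2 * M) * (2 * Fintype.card T / c) = Fintype.card T * M := by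
    field_simp
  linarith

end Pool.Agent.helper62.MF
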