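import Mathlib
import Pool.Agent.helper62.MF.Drc

/-!
# MP_141f81: joint cleaning for all sub-structures (abstract form)

`P` rows, `R : Finset P`.  `T` is a finite index set of triples `t = (τ, a, b)`; `sg t ρ` is the
restriction of the row to `τ`, `A t ρ` and `Bb t ρ` are its symbols at `a` and `b`.
-/

namespace Pool.Agent.helper62.MF

open Finset

/-- Density after `k` steps. -/
noncomputable def jK (c : ℝ) (M k : ℕ) : ℝ := (c / (4 * (M + 1))) ^ k * (c / 2)
/-- The parameter `θ`. -/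
noncomputable def jT (c : ℝ) (M : ℕ) : ℝ := c / (2 * (M + 1)) * jK c M M / 12
/-- The parameter `η`. -/
noncomputable def jE (c : ℝ) (M : ℕ) : ℝ := jT c M * (c / (2 * (M + 1))) * jK c M M / 4
/-- The final constant. -/
noncomputable def dJ (c : ℝ) (M : ℕ) : ℝ := min (jK c M M) (jT c M * jE c M ^ 2)

theorem jK_pos {c : ℝ} (hc : 0 < c) (M k : ℕ) : 0 < jK c M k := by unfold jK; positivity
theorem jT_pos {c : ℝ} (hc : 0 < c) (M : ℕ) : 0 < jT c M := by
  have := jK_pos hc M M
  unfold jT; positivity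
theorem jE_pos {c : ℝ} (hc : 0 < c) (M : ℕ) : 0 < jE c M := by
  have := jK_pos hc M M
  have := jT_pos hc M
  unfold jE; positivity
theorem dJ_pos {c : ℝ} (hc : 0 < c) (M : ℕ) : 0 < dJ c M := by
  have h1 := jK_pos hc M M
  have h2 := jT_pos hc M
  have h3 := jE_pos hc M
  unfold dJ
  exact lt_min h1 (by positivity)

/-- The link graph of the sub-structure `s` at the triple `t`. -/
def HJ {P T : Type*} {Sg : T → Type*} {n : ℕ} (R : Finset P) (sg : ∀ t, P → Sg t)
    (A Bb : T → P → Fin n) (t : T) (s : Sg t) (z e : Fin n) : Prop :=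
  ∃ ρ ∈ R, sg t ρ = s ∧ A t ρ = z ∧ Bb t ρ = e

open Classical in
/-- Joint cleaning, abstract form. -/
theorem jc_abs {P T : Type*} [Fintype T] {Sg : T → Type*} (n r : ℕ) (hn : 0 < n) (c : ℝ)
    (hc : 0 < c) (R : Finset P) (k : T → ℕ) (hk : ∀ t, k t + 2 ≤ r)
    (sg : ∀ t, P → Sg t) (A Bb : T → P → Fin n)
    (hsize : c * n ^ r ≤ #R) (hR : #R ≤ n ^ r)
    (himg : ∀ t, #(R.image (sg t)) ≤ n ^ k t)
    (h1 : ∀ t s z, #{ρ ∈ R | sg t ρ = s ∧ A t ρ = z} ≤ n ^ (r - k t - 1))
    (h2 : ∀ t s z e, #{ρ ∈ R | sg t ρ = s ∧ A t ρ = z ∧ Bb t ρ = e} ≤ n ^ (r - k t - 2)) :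
    ∃ Q ⊆ R, dJ c (Fintype.card T) * n ^ r ≤ #Q ∧
      ∀ t, ∀ ρ₁ ∈ Q, ∀ ρ₂ ∈ Q, sg t ρ₁ = sg t ρ₂ →
        dJ c (Fintype.card T) * n ^ 3
          ≤ (#(walks (HJ R sg A Bb t (sg t ρ₁)) (A t ρ₁) (A t ρ₂)) : ℝ) := by
  have hn' : (0 : ℝ) < n := by exact_mod_cast hn
  set M := Fintype.card T with hM
  set δ : ℝ := c / (2 * (M + 1)) with hδd
  have hδ0 : 0 < δ := by positivity
  have hc1 : c ≤ 1 := by
    have h3 : c * (n : ℝ) ^ r ≤ 1 * (n : ℝ) ^ r := by
      rw [one_mul]; refine hsize.trans ?_; exact_mod_cast hR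
    exact le_of_mul_le_mul_right h3 (by positivity)
  -- degree of the `a`-symbol of a row in the link
  set dg : T → P → ℕ := fun t ρ => #{e : Fin n | HJ R sg A Bb t (sg t ρ) (A t ρ) e} with hdg
  set bad : T → Finset P := fun t => {ρ ∈ R | (dg t ρ : ℝ) < δ * n} with hbad
  have hbadcard : ∀ t, (#(bad t) : ℝ) ≤ δ * n ^ r := by
    intro t
    -- fibre over `(sg, A)`
    have e1 : #(bad t) = ∑ p ∈ (bad t).image (fun ρ => (sg t ρ, A t ρ)),
        #{ρ ∈ bad t | (sg t ρ, A t ρ) = p} := Finset.card_eq_sum_card_image _ _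
    have e2 : ∀ p ∈ (bad t).image (fun ρ => (sg t ρ, A t ρ)),
        (#{ρ ∈ bad t | (sg t ρ, A t ρ) = p} : ℝ) ≤ δ * n ^ (r - k t - 1) := by
      intro p hp
      obtain ⟨ρ, hρ, rfl⟩ := Finset.mem_image.1 hp
      simp only [hbad, mem_filter] at hρ
      -- number of rows through `(sg, A)` is at most the degree times `n ^ (r - k - 2)`
      set F : Finset P := {ρ' ∈ R | sg t ρ' = sg t ρ ∧ A t ρ' = A t ρ} with hF
      have f1 : #F ≤ n ^ (r - k t - 2) * #(F.image (Bb t)) := by
        apply Finset.card_le_mul_card_image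
        intro e he
        refine le_trans (Finset.card_le_card ?_) (h2 t (sg t ρ) (A t ρ) e)
        intro ρ' h
        simp only [hF, mem_filter] at h ⊢
        exact ⟨h.1.1, h.1.2.1, h.1.2.2, h.2⟩
      have f2 : #(F.image (Bb t)) ≤ dg t ρ := by
        apply Finset.card_le_card
        intro e he
        obtain ⟨ρ', hρ', rfl⟩ := Finset.mem_image.1 he
        simp only [hF, mem_filter] at hρ'
        simp only [mem_filter, mem_univ, true_and]
        exact ⟨ρ', hρ'.1, hρ'.2.1, hρ'.2.2, rfl⟩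
      have f3 : (#F : ℝ) ≤ (n : ℝ) ^ (r - k t - 2) * (δ * n) := by
        have : (#F : ℝ) ≤ (n : ℝ) ^ (r - k t - 2) * dg t ρ := by
          exact_mod_cast f1.trans (Nat.mul_le_mul_left _ f2)
        refine this.trans ?_
        apply mul_le_mul_of_nonneg_left hρ.2.le (by positivity)
      have f4 : #{ρ' ∈ bad t | (sg t ρ', A t ρ') = (sg t ρ, A t ρ)} ≤ #F := by
        apply Finset.card_le_card
        intro ρ' h
        simp only [hbad, hF, mem_filter, Prod.mk.injEq] at h ⊢
        exact ⟨h.1.1, h.2.1, h.2.2⟩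
      have f5 : (#{ρ' ∈ bad t | (sg t ρ', A t ρ') = (sg t ρ, A t ρ)} : ℝ) ≤ #F := by
        exact_mod_cast f4
      refine f5.trans (f3.trans (le_of_eq ?_))
      have hk' := hk t
      obtain ⟨j, hj⟩ : ∃ j, r = k t + 2 + j := ⟨r - (k t + 2), by omega⟩
      have g1 : r - k t - 2 = j := by omega
      have g2 : r - k t - 1 = j + 1 := by omega
      rw [g1, g2, pow_succ]; ring
    have e3 : #((bad t).image (fun ρ => (sg t ρ, A t ρ))) ≤ n ^ k t * n := by
      have f1 : (bad t).image (fun ρ => (sg t ρ, A t ρ)) ⊆ (R.image (sg t)) ×ˢ (univ : Finset (Fin n)) := by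
        intro p hp
        obtain ⟨ρ, hρ, rfl⟩ := Finset.mem_image.1 hp
        simp only [hbad, mem_filter] at hρ
        simp only [mem_product, mem_univ, and_true]
        exact Finset.mem_image_of_mem _ hρ.1
      refine (Finset.card_le_card f1).trans ?_
      rw [Finset.card_product, Finset.card_univ, Fintype.card_fin]
      exact Nat.mul_le_mul_right _ (himg t)
    have e4 : (#(bad t) : ℝ) ≤ #((bad t).image (fun ρ => (sg t ρ, A t ρ))) * (δ * n ^ (r - k t - 1)) := by
      rw [e1]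
      push_cast
      refine (Finset.sum_le_sum e2).trans ?_
      rw [Finset.sum_const, nsmul_eq_mul]
    have e5 : (#((bad t).image (fun ρ => (sg t ρ, A t ρ))) : ℝ) ≤ (n : ℝ) ^ k t * n := by
      exact_mod_cast e3
    refine e4.trans ?_
    calc (#((bad t).image (fun ρ => (sg t ρ, A t ρ))) : ℝ) * (δ * n ^ (r - k t - 1))
        ≤ ((n : ℝ) ^ k t * n) * (δ * n ^ (r - k t - 1)) :=
          mul_le_mul_of_nonneg_right e5 (by positivity)
      _ = δ * n ^ r := by
          have hk' := hk t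
          obtain ⟨j, hj⟩ : ∃ j, r = k t + 2 + j := ⟨r - (k t + 2), by omega⟩
          have g2 : r - k t - 1 = j + 1 := by omega
          rw [g2, hj]; ring
  set Q0 : Finset P := {ρ ∈ R | ∀ t, δ * n ≤ dg t ρ} with hQ0
  have hQ0R : Q0 ⊆ R := Finset.filter_subset _ _
  have hQ0card : c / 2 * n ^ r ≤ #Q0 := by
    have e1 : R ⊆ Q0 ∪ univ.biUnion bad := by
      intro ρ hρ
      simp only [hQ0, hbad, mem_union, mem_filter, mem_biUnion, mem_univ, true_and]
      by_cases h : ∀ t, δ * n ≤ dg t ρ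
      · exact Or.inl ⟨hρ, h⟩
      · push Not at h
        obtain ⟨t, ht⟩ := h
        exact Or.inr ⟨t, hρ, ht⟩
    have e2 : #R ≤ #Q0 + ∑ t, #(bad t) :=
      (Finset.card_le_card e1).trans ((Finset.card_union_le _ _).trans
        (Nat.add_le_add_left Finset.card_biUnion_le _))
    have e3 : (#R : ℝ) ≤ #Q0 + ∑ t, (#(bad t) : ℝ) := by exact_mod_cast e2
    have e4 : ∑ t, (#(bad t) : ℝ) ≤ M * (δ * n ^ r) := by
      refine (Finset.sum_le_sum (fun t _ => hbadcard t)).trans ?_
      rw [Finset.sum_const, nsmul_eq_mul, Finset.card_univ, ← hM]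
    have e5 : (M : ℝ) * (δ * n ^ r) ≤ c / 2 * n ^ r := by
      rw [← mul_assoc]
      apply mul_le_mul_of_nonneg_right _ (by positivity)
      rw [hδd]
      have : (M : ℝ) * (c / (2 * (M + 1))) = c / 2 * (M / (M + 1)) := by field_simp
      rw [this]
      have h3 : (M : ℝ) / (M + 1) ≤ 1 := by
        rw [div_le_one (by positivity)]; linarith
      calc c / 2 * ((M : ℝ) / (M + 1)) ≤ c / 2 * 1 := by
            apply mul_le_mul_of_nonneg_left h3 (by positivity)
        _ = c / 2 := mul_one _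
    linarith
  -- iteration
  set θ := jT c M with hθ
  set η := jE c M with hη
  have hθ0 : 0 < θ := jT_pos hc M
  have hη0 : 0 < η := jE_pos hc M
  have hiter : ∀ s : Finset T, ∃ Q ⊆ Q0, jK c M #s * n ^ r ≤ #Q ∧
      ∀ t ∈ s, ∀ ρ₁ ∈ Q, ∀ ρ₂ ∈ Q, sg t ρ₁ = sg t ρ₂ →
        θ * η ^ 2 * n ^ 3 ≤ (#(walks (HJ R sg A Bb t (sg t ρ₁)) (A t ρ₁) (A t ρ₂)) : ℝ) := by
    intro s
    induction s using Finset.induction_on with
    | empty =>
      refine ⟨Q0, Finset.Subset.refl _, ?_, by simp⟩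
      simp only [Finset.card_empty, jK, pow_zero, one_mul]
      exact hQ0card
    | insert t0 s ht0 ih =>
      obtain ⟨Q, hQQ0, hcard, hw⟩ := ih
      have hx : ∀ x : Sg t0, ∃ Hx : Finset (Fin n),
          (∀ b ∈ Hx, ∀ b' ∈ Hx,
            θ * η ^ 2 * n ^ 3 ≤ (#(walks (HJ R sg A Bb t0 x) b b') : ℝ)) ∧
          δ * #{ρ ∈ Q | sg t0 ρ = x} - (3 * θ + 1 ^ 2 * η / θ) * (n : ℝ) ^ (r - k t0 - 1) * n
            ≤ #{ρ ∈ ({ρ ∈ Q | sg t0 ρ = x} : Finset P) | A t0 ρ ∈ Hx} := by
        intro x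
        refine Exists.imp (fun Hx h => ⟨h.1, h.2.trans (Nat.cast_le.2 (Finset.card_le_card ?_))⟩)
          (drc n hn (HJ R sg A Bb t0 x) {ρ ∈ Q | sg t0 ρ = x} (fun (_ : Unit) ρ => A t0 ρ)
          1 ((n : ℝ) ^ (r - k t0 - 1)) δ θ η ?_ ?_ ?_ ?_ hθ0 hη0.le)
        · simp
        · intro ρ hρ
          rw [mem_filter] at hρ
          have hρQ : ρ ∈ Q0 := hQQ0 hρ.1
          have e1 : δ * n ≤ dg t0 ρ := by
            simp only [hQ0, mem_filter] at hρQ; exact hρQ.2 t0
          refine e1.trans (Nat.cast_le.2 (Finset.card_le_card ?_))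
          intro a ha
          simp only [mem_filter, mem_univ, true_and, forall_const] at ha ⊢
          rw [← hρ.2]
          exact ha
        · positivity
        · intro b
          have e2 : (#{ρ ∈ R | sg t0 ρ = x ∧ A t0 ρ = b} : ℝ) ≤ (n : ℝ) ^ (r - k t0 - 1) := by
            exact_mod_cast h1 t0 x b
          refine le_trans (Nat.cast_le.2 (Finset.card_le_card ?_)) e2
          intro ρ hρ
          simp only [mem_filter, exists_const] at hρ ⊢
          exact ⟨hQ0R (hQQ0 hρ.1.1), hρ.1.2, hρ.2⟩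
        · intro ρ hρ
          simp only [mem_filter, forall_const] at hρ ⊢
          exact hρ
      choose Hx hHx1 hHx2 using hx
      refine ⟨{ρ ∈ Q | A t0 ρ ∈ Hx (sg t0 ρ)}, ?_, ?_, ?_⟩
      · exact (Finset.filter_subset _ _).trans hQQ0
      · -- the count
        have e2 : #{ρ ∈ Q | A t0 ρ ∈ Hx (sg t0 ρ)}
            = ∑ x ∈ R.image (sg t0), #{ρ ∈ ({ρ ∈ Q | sg t0 ρ = x} : Finset P) | A t0 ρ ∈ Hx x} := by
          rw [Finset.card_eq_sum_card_fiberwise (f := fun ρ => sg t0 ρ) (t := R.image (sg t0))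
            (fun ρ hρ => Finset.mem_coe.2 (Finset.mem_image_of_mem _
              (hQ0R (hQQ0 (Finset.mem_filter.1 (Finset.mem_coe.1 hρ)).1))))]
          apply Finset.sum_congr rfl
          intro x _
          congr 1
          ext ρ
          simp only [mem_filter]
          constructor
          · rintro ⟨⟨h1, h2⟩, h3⟩
            exact ⟨⟨h1, h3⟩, by rw [← h3]; exact h2⟩
          · rintro ⟨⟨h1, h3⟩, h2⟩
            exact ⟨⟨h1, by rw [h3]; exact h2⟩, h3⟩
        have e3 : (#Q : ℝ) = ∑ x ∈ R.image (sg t0), (#{ρ ∈ Q | sg t0 ρ = x} : ℝ) := by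
          rw [Finset.card_eq_sum_card_fiberwise (f := fun ρ => sg t0 ρ) (t := R.image (sg t0))
            (fun ρ hρ => Finset.mem_coe.2 (Finset.mem_image_of_mem _
              (hQ0R (hQQ0 (Finset.mem_coe.1 hρ)))))]
          push_cast
          rfl
        have e4 : δ * #Q - (3 * θ + 1 ^ 2 * η / θ) * (n : ℝ) ^ r
            ≤ (#{ρ ∈ Q | A t0 ρ ∈ Hx (sg t0 ρ)} : ℝ) := by
          rw [e2, e3]
          push_cast
          have g1 : ∑ x ∈ R.image (sg t0), (δ * (#{ρ ∈ Q | sg t0 ρ = x} : ℝ)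
              - (3 * θ + 1 ^ 2 * η / θ) * (n : ℝ) ^ (r - k t0 - 1) * n)
              ≤ ∑ x ∈ R.image (sg t0),
                (#{ρ ∈ ({ρ ∈ Q | sg t0 ρ = x} : Finset P) | A t0 ρ ∈ Hx x} : ℝ) :=
            Finset.sum_le_sum (fun x _ => hHx2 x)
          rw [Finset.sum_sub_distrib, ← Finset.mul_sum, Finset.sum_const, nsmul_eq_mul] at g1
          have g2 : (#(R.image (sg t0)) : ℝ) ≤ (n : ℝ) ^ k t0 := by exact_mod_cast himg t0
          have g3 : (#(R.image (sg t0)) : ℝ) * ((3 * θ + 1 ^ 2 * η / θ) * (n : ℝ) ^ (r - k t0 - 1) * n)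
              ≤ (3 * θ + 1 ^ 2 * η / θ) * (n : ℝ) ^ r := by
            calc (#(R.image (sg t0)) : ℝ) * ((3 * θ + 1 ^ 2 * η / θ) * (n : ℝ) ^ (r - k t0 - 1) * n)
                ≤ (n : ℝ) ^ k t0 * ((3 * θ + 1 ^ 2 * η / θ) * (n : ℝ) ^ (r - k t0 - 1) * n) :=
                  mul_le_mul_of_nonneg_right g2 (by positivity)
              _ = _ := by
                  have hk' := hk t0
                  obtain ⟨j, hj⟩ : ∃ j, r = k t0 + 2 + j := ⟨r - (k t0 + 2), by omega⟩
                  have g4 : r - k t0 - 1 = j + 1 := by omega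
                  rw [g4, hj]; ring
          linarith
        have e5 : jK c M #(insert t0 s) * (n : ℝ) ^ r
            ≤ δ * #Q - (3 * θ + 1 ^ 2 * η / θ) * (n : ℝ) ^ r := by
          rw [Finset.card_insert_of_notMem ht0]
          have hle : jK c M M ≤ jK c M #s := by
            unfold jK
            apply mul_le_mul_of_nonneg_right _ (by positivity)
            apply pow_le_pow_of_le_one (by positivity)
            · rw [div_le_one (by positivity)]
              have : (0 : ℝ) ≤ M := by positivity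
              linarith
            · rw [hM]; exact Finset.card_le_univ s
          have g1 : 3 * θ = δ * jK c M M / 4 := by rw [hθ, hδd]; unfold jT; ring
          have g2 : 1 ^ 2 * η / θ = δ * jK c M M / 4 := by
            have : η = θ * δ * jK c M M / 4 := by rw [hη, hδd]; unfold jE; rw [← hθ]
            rw [this]
            field_simp
          have g3 : jK c M (#s + 1) = δ / 2 * jK c M #s := by
            unfold jK; rw [pow_succ, hδd]
            have : c / (4 * ((M : ℝ) + 1)) = c / (2 * (M + 1)) / 2 := by field_simp; ring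
            rw [this]; ring
          rw [g1, g2, g3]
          have g4 : δ * (jK c M #s * n ^ r) ≤ δ * #Q :=
            mul_le_mul_of_nonneg_left hcard (by positivity)
          have g5 : δ * jK c M M * (n : ℝ) ^ r ≤ δ * jK c M #s * (n : ℝ) ^ r := by
            apply mul_le_mul_of_nonneg_right _ (by positivity)
            apply mul_le_mul_of_nonneg_left hle (by positivity)
          nlinarith
        linarith
      · intro t ht ρ₁ hρ₁ ρ₂ hρ₂ heq
        rw [mem_filter] at hρ₁ hρ₂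
        rw [Finset.mem_insert] at ht
        rcases ht with rfl | ht
        · apply hHx1 _ _ hρ₁.2
          rw [heq]; exact hρ₂.2
        · exact hw t ht ρ₁ hρ₁.1 ρ₂ hρ₂.1 heq
  obtain ⟨Q, hQ, hcard, hw⟩ := hiter univ
  refine ⟨Q, hQ.trans hQ0R, ?_, ?_⟩
  · rw [Finset.card_univ, ← hM] at hcard
    refine le_trans ?_ hcard
    apply mul_le_mul_of_nonneg_right _ (by positivity)
    exact min_le_left _ _
  · intro t ρ₁ hρ₁ ρ₂ hρ₂ heq
    refine le_trans ?_ (hw t (mem_univ _) ρ₁ hρ₁ ρ₂ hρ₂ heq)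
    apply mul_le_mul_of_nonneg_right _ (by positivity)
    exact min_le_right _ _

end Pool.Agent.helper62.MF
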